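import Pool.Agent.Lib_helper99.FGA.Wanted
import Pool.Agent.Lib_helper92.HCF.SML

/-!
# FGA, block A02: the large sieve in mean over all moduli
-/

set_option autoImplicit false

namespace Pool.Agent.FGA

open Finset Pool.Agent.Var35 Pool.Agent.Var73 Pool.Agent.PV Pool.Agent.FGP
open scoped ArithmeticFunction ArithmeticFunction.Moebius

/-- Parseval on the grid -/
theorem a02_pars {L M : ℕ} (hLM : L ≤ M) (hM0 : 0 < M) (a : ℕ → ℂ) (P : ℝ → ℂ)
    (hP : ∀ t : ℝ, ‖P t‖ = ‖∑ m ∈ range L, a m * e (m * t)‖) :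
    ms M P = ∑ m ∈ range L, ‖a m‖ ^ 2 := by
  have hMc : (M : ℂ) ≠ 0 := by exact_mod_cast hM0.ne'
  have h1 : ∀ t : ℝ, ((‖P t‖ ^ 2 : ℝ) : ℂ) = ∑ h ∈ range L, ∑ h' ∈ range L,
      a h * (starRingEnd ℂ) (a h') * e ((((h : ℤ) - (h' : ℤ) : ℤ) : ℝ) * t) := by
    intro t
    rw [hP t, Complex.ofReal_pow, ← Complex.mul_conj', map_sum, sum_mul_sum]
    refine sum_congr rfl fun h _ => sum_congr rfl fun h' _ => ?_
    have h3 : (((h : ℤ) - (h' : ℤ) : ℤ) : ℝ) * t = h * t - h' * t := by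
      push_cast
      ring
    rw [h3, e_sub, map_mul]
    ring
  have h4 : ((ms M P : ℝ) : ℂ) = ((∑ h ∈ range L, ‖a h‖ ^ 2 : ℝ) : ℂ) := by
    unfold ms mean
    rw [Complex.ofReal_mul, Complex.ofReal_sum]
    have h5 : ∀ j ∈ range M, ((‖P ((j : ℝ) / M)‖ ^ 2 : ℝ) : ℂ) =
        ∑ h ∈ range L, ∑ h' ∈ range L,
        a h * (starRingEnd ℂ) (a h') * e ((j : ℝ) * ((((h : ℤ) - (h' : ℤ) : ℤ) : ℝ) / M)) := by
      intro j _
      rw [h1]
      refine sum_congr rfl fun h _ => sum_congr rfl fun h' _ => ?_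
      congr 2
      ring
    rw [sum_congr rfl h5, sum_comm, mul_sum, Complex.ofReal_sum]
    refine sum_congr rfl fun h hh => ?_
    rw [sum_comm, mul_sum, sum_eq_single h]
    · rw [← mul_sum, sum_roots M hM0, if_pos (by simp)]
      rw [Complex.mul_conj']
      push_cast
      field_simp
    · intro h' hh' hne
      rw [← mul_sum, sum_roots M hM0, if_neg, mul_zero, mul_zero]
      intro hd
      rw [mem_range] at hh hh'
      have h6 := Int.eq_zero_of_abs_lt_dvd hd (by rw [abs_lt]; omega)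
      exact hne (by omega)
    · intro h6
      exact absurd hh h6
  exact_mod_cast h4

/-- the large sieve for the fractions of denominator in `(U, V]` -/
theorem a02_ls (a : ℕ → ℂ) (L U V : ℕ) (hU : 1 ≤ U) (hUV : U ≤ V) :
    ∑ r ∈ Ioc U V, ∑ c ∈ Cd r, ‖∑ m ∈ range L, a m * e (m * ((c : ℝ) / r))‖ ^ 2 ≤
      (22 * ∑ m ∈ range L, ‖a m‖ ^ 2) * ((L : ℝ) + (V : ℝ) ^ 2) := by
  have hV : (0 : ℝ) < V := by exact_mod_cast (by omega : 0 < V)
  rw [Finset.sum_sigma' (Ioc U V) (fun r => Cd r)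
    (fun r c => ‖∑ m ∈ range L, a m * e (m * ((c : ℝ) / r))‖ ^ 2)]
  have hsep := farey_sep_gen (Ioc U V) V (fun d hd => by rw [mem_Ioc] at hd; omega) (by omega)
  have h1 := large_sieve ((Ioc U V).sigma (fun d => Cd d))
    (fun x : (Σ _ : ℕ, ℕ) => (x.2 : ℝ) / x.1) (1 / (V : ℝ) ^ 2) (by positivity)
    (by
      rw [div_le_one (by positivity)]
      have : (1 : ℝ) ≤ V := by exact_mod_cast (by omega : 1 ≤ V)
      nlinarith) hsep a L
  have h4 : 22 * ((L : ℝ) + 1 / (1 / (V : ℝ) ^ 2)) * ∑ m ∈ range L, ‖a m‖ ^ 2 =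
      (22 * ∑ m ∈ range L, ‖a m‖ ^ 2) * ((L : ℝ) + (V : ℝ) ^ 2) := by
    rw [one_div_one_div]; ring
  rw [h4] at h1
  exact h1

/-- the multiples of `r` in `(Y, 4Y]` -/
theorem a02_mult (Y r : ℕ) (hY : 1 ≤ Y) (hr : 0 < r) :
    ∑ Q ∈ (Ioc Y (4 * Y)).filter (fun Q => r ∣ Q), (1 / (Q : ℝ)) ≤ 4 / r := by
  have hY0 : (0 : ℝ) < Y := by exact_mod_cast hY
  have hr0 : (0 : ℝ) < r := by exact_mod_cast hr
  have h1 : ∀ Q ∈ (Ioc Y (4 * Y)).filter (fun Q => r ∣ Q), (1 / (Q : ℝ)) ≤ 1 / Y := by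
    intro Q hQ
    rw [mem_filter, mem_Ioc] at hQ
    apply one_div_le_one_div_of_le hY0
    exact_mod_cast hQ.1.1.le
  have h2 : (Ioc Y (4 * Y)).filter (fun Q => r ∣ Q) ⊆ (Icc 1 (4 * Y / r)).image (fun k => r * k) := by
    intro Q hQ
    simp only [mem_filter, mem_Ioc] at hQ
    obtain ⟨⟨h4, h5⟩, k, rfl⟩ := hQ
    simp only [mem_image, mem_Icc]
    refine ⟨k, ⟨Nat.pos_of_ne_zero (by rintro rfl; omega), ?_⟩, rfl⟩
    rw [Nat.le_div_iff_mul_le hr, mul_comm]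
    exact h5
  have h3 : (((Ioc Y (4 * Y)).filter (fun Q => r ∣ Q)).card : ℝ) ≤ 4 * Y / r := by
    have h5 : ((Ioc Y (4 * Y)).filter (fun Q => r ∣ Q)).card ≤ 4 * Y / r := by
      refine (card_le_card h2).trans (card_image_le.trans ?_)
      rw [Nat.card_Icc, Nat.add_sub_cancel]
    calc (((Ioc Y (4 * Y)).filter (fun Q => r ∣ Q)).card : ℝ) ≤ ((4 * Y / r : ℕ) : ℝ) := by
          exact_mod_cast h5
      _ ≤ ((4 * Y : ℕ) : ℝ) / r := Nat.cast_div_le
      _ = 4 * Y / r := by push_cast; ring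
  calc ∑ Q ∈ (Ioc Y (4 * Y)).filter (fun Q => r ∣ Q), (1 / (Q : ℝ))
      ≤ ∑ Q ∈ (Ioc Y (4 * Y)).filter (fun Q => r ∣ Q), (1 / (Y : ℝ)) := sum_le_sum h1
    _ = (((Ioc Y (4 * Y)).filter (fun Q => r ∣ Q)).card : ℝ) * (1 / Y) := by
        rw [sum_const, nsmul_eq_mul]
    _ ≤ (4 * Y / r) * (1 / Y) := mul_le_mul_of_nonneg_right h3 (by positivity)
    _ = 4 / r := by field_simp

/-- swapping the sums -/
theorem a02_swap (H : ℕ → ℝ) (hH : ∀ r, 0 ≤ H r) (R Y : ℕ) (hY : 1 ≤ Y) :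
    ∑ Q ∈ Ioc Y (4 * Y), (1 / (Q : ℝ)) * ∑ r ∈ Q.divisors.filter (fun r => R < r), H r ≤
      4 * ∑ r ∈ Ioc R (4 * Y), H r / r := by
  have h1 : ∑ Q ∈ Ioc Y (4 * Y), (1 / (Q : ℝ)) * ∑ r ∈ Q.divisors.filter (fun r => R < r), H r =
      ∑ r ∈ Ioc R (4 * Y), ∑ Q ∈ (Ioc Y (4 * Y)).filter (fun Q => r ∣ Q), (1 / (Q : ℝ)) * H r := by
    simp_rw [Finset.mul_sum]
    apply Finset.sum_comm'
    intro Q r
    simp only [mem_filter, Nat.mem_divisors, mem_Ioc]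
    constructor
    · rintro ⟨⟨h1, h2⟩, ⟨h3, h4⟩, h5⟩
      exact ⟨⟨⟨h1, h2⟩, h3⟩, h5, (Nat.le_of_dvd (by omega) h3).trans h2⟩
    · rintro ⟨⟨⟨h1, h2⟩, h3⟩, h4, h5⟩
      exact ⟨⟨h1, h2⟩, ⟨h3, by omega⟩, h4⟩
  rw [h1, Finset.mul_sum]
  refine Finset.sum_le_sum fun r hr => ?_
  rw [mem_Ioc] at hr
  have hr0 : 0 < r := by omega
  rw [← Finset.sum_mul]
  calc (∑ Q ∈ (Ioc Y (4 * Y)).filter (fun Q => r ∣ Q), (1 / (Q : ℝ))) * H r
      ≤ 4 / r * H r := mul_le_mul_of_nonneg_right (a02_mult Y r hY hr0) (hH r)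
    _ = 4 * (H r / r) := by ring

/-- block A02 : the large sieve in mean over all moduli -/
theorem A02_pr : A02 := by
  refine ⟨704, by norm_num, ?_⟩
  intro N' M Y R A B P hP hAB hM hY hR hN
  obtain ⟨c, hc⟩ := hP
  have hY1 : (1 : ℝ) ≤ Y := by exact_mod_cast hY
  have hR0 : (0 : ℝ) < R := by exact_mod_cast hR
  have hN1 : (1 : ℝ) ≤ N' := by exact_mod_cast hN
  set a : ℕ → ℂ := fun m => if A + m ≤ B then c (A + m) else 0 with ha
  -- shift of the frequencies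
  have hnorm : ∀ t : ℝ, ‖P t‖ = ‖∑ m ∈ range (N' + 1), a m * e (m * t)‖ := by
    intro t
    have h1 : P t = e (A * t) * ∑ m ∈ range (N' + 1), a m * e (m * t) := by
      rw [hc t, mul_sum]
      have h2 : ∀ m ∈ range (N' + 1), e (A * t) * (a m * e (m * t)) =
          if A + m ≤ B then c (A + m) * e (((A + m : ℤ) : ℝ) * t) else 0 := by
        intro m _
        rw [ha]
        by_cases h3 : A + m ≤ B
        · simp only [if_pos h3]
          have h4 : ((A + m : ℤ) : ℝ) * t = A * t + m * t := by push_cast; ring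
          rw [h4, e_add]
          ring
        · simp only [if_neg h3]
          ring
      rw [sum_congr rfl h2, ← sum_filter]
      symm
      refine Finset.sum_bij (fun m _ => A + (m : ℤ)) ?_ ?_ ?_ ?_
      · intro m hm
        rw [mem_filter] at hm
        rw [mem_Icc]
        omega
      · intro x _ y _ hxy
        omega
      · intro n hn
        rw [mem_Icc] at hn
        refine ⟨(n - A).toNat, ?_, ?_⟩
        · rw [mem_filter, mem_range]
          omega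
        · omega
      · intro m _
        rfl
    rw [h1, norm_mul, norm_e, one_mul]
  have hms := a02_pars (by omega : N' + 1 ≤ M) (by omega) a P hnorm
  set A2 : ℝ := ∑ m ∈ range (N' + 1), ‖a m‖ ^ 2 with hA2
  have hA : 0 ≤ A2 := Finset.sum_nonneg fun _ _ => by positivity
  rw [hms]
  set H : ℕ → ℝ := fun r => ∑ c ∈ Cd r, ‖P ((c : ℝ) / r)‖ ^ 2 with hH
  have hH0 : ∀ r, 0 ≤ H r := fun r => Finset.sum_nonneg fun _ _ => by positivity
  have hls : ∀ V, R ≤ V → ∑ r ∈ Ioc R V, H r ≤ (22 * A2) * (((N' : ℝ) + 1) + (V : ℝ) ^ 2) := by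
    intro V hV
    have h1 := a02_ls a (N' + 1) R V hR hV
    simp only [hH]
    simp_rw [hnorm]
    refine h1.trans (le_of_eq ?_)
    push_cast
    ring
  have h1 : ∑ Q ∈ MQ Y, VP P Q R =
      ∑ Q ∈ Ioc Y (4 * Y), (1 / (Q : ℝ)) * ∑ r ∈ Q.divisors.filter (fun r => R < r), H r := by
    unfold MQ VP
    refine Finset.sum_congr rfl fun Q hQ => ?_
    rw [mem_Ioc] at hQ
    have h2 := HC.sml_reindex (fun t => ‖P t‖ ^ 2) R Q (by omega)
    rw [h2]
  rw [h1]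
  refine (a02_swap H hH0 R Y hY).trans ?_
  rcases le_or_gt R (4 * Y) with hRY | hRY
  · have h2 := HC.sml_abel H (22 * A2) ((N' : ℝ) + 1) (by positivity) R (4 * Y) hR hRY hls
    have h3 := hls (4 * Y) hRY
    have hZ0 : (0 : ℝ) < ((4 * Y : ℕ) : ℝ) := by push_cast; linarith
    have h4 : (∑ r ∈ Ioc R (4 * Y), H r) / ((4 * Y : ℕ) : ℝ) ≤
        (22 * A2) * (((N' : ℝ) + 1) / ((4 * Y : ℕ) : ℝ) + ((4 * Y : ℕ) : ℝ)) := by
      rw [div_le_iff₀ hZ0]
      refine h3.trans (le_of_eq ?_)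
      field_simp
    have h5 : ∑ r ∈ Ioc R (4 * Y), H r / r ≤ (22 * A2) * (((N' : ℝ) + 1) / R + 8 * Y) := by
      refine (h2.trans (add_le_add_left h4 _)).trans ?_
      have h6 : (22 * A2) * (((N' : ℝ) + 1) / ((4 * Y : ℕ) : ℝ) + ((4 * Y : ℕ) : ℝ)) +
          22 * A2 * (((N' : ℝ) + 1) * (1 / R - 1 / ((4 * Y : ℕ) : ℝ)) + (((4 * Y : ℕ) : ℝ) - R)) =
          (22 * A2) * (((N' : ℝ) + 1) / R + 2 * ((4 * Y : ℕ) : ℝ) - R) := by ring
      rw [h6]
      apply mul_le_mul_of_nonneg_left _ (by positivity)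
      push_cast
      linarith
    have h8 : ((N' : ℝ) + 1) / R ≤ 2 * (N' / R) := by
      rw [← mul_div_assoc]
      apply div_le_div_of_nonneg_right _ hR0.le
      linarith
    have h9 : 0 ≤ (N' : ℝ) / R := by positivity
    calc 4 * ∑ r ∈ Ioc R (4 * Y), H r / r
        ≤ 4 * ((22 * A2) * (((N' : ℝ) + 1) / R + 8 * Y)) :=
          mul_le_mul_of_nonneg_left h5 (by norm_num)
      _ ≤ 4 * ((22 * A2) * (8 * (Y + N' / R))) := by
          apply mul_le_mul_of_nonneg_left _ (by norm_num)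
          apply mul_le_mul_of_nonneg_left _ (by positivity)
          linarith
      _ = 704 * ((Y : ℝ) + N' / R) * A2 := by ring
  · rw [Finset.Ioc_eq_empty (by omega), Finset.sum_empty, mul_zero]
    positivity

end Pool.Agent.FGA
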